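import Pool.Agent.H82.FD.Soft
import Pool.Agent.H82.FD.Two

set_option autoImplicit false

/-!
# Nonshortcutting fillings of the round sphere: the volume far from the boundary

`M` is a nonshortcutting filling of the unit round sphere `S^d`, `d ≥ 1`, of any topology, orientable
or not (definitions of the library: a metric space with countably many Riemannian charts; compact and
with arbitrarily fine finite triangulations, or without continuous retraction onto the boundary).
`deepVol S t` is the volume of the set of all points of `M` whose distance from the boundary is at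
least `t`. Let `I m = ∫₀^π sin^m` and `ω` the volume of the unit ball of `ℝ^(d+1)`.

* `deepVol S t ≥ ω ((I d - 2 t + ∫_{t-s}^{t+s} (1 - 2 cos^d u) du) / I (d+1))^(d+1)` for
  `0 ≤ s ≤ t ≤ π/2 - s`. For `s = 0` this is `ω ((I d - 2 t) / I (d+1))^(d+1)`, and for `s = t` it is
  `ω (2 ∫_{2t}^{π/2} cos^d / I (d+1))^(d+1)`, which is positive for all `t < π/4`.
* `deepVol S t ≥ ω (sin (t₀ - t) ∫₀^{t₀-t} sin^d / I (d+1))^(d+1) > 0` for all `0 ≤ t < t₀`, where
  `t₀ = arccos (-1/(d+1)) / 2` is the filling radius of `S^d` (computed by M. Katz).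

So the volume of a nonshortcutting filling cannot be concentrated near the boundary.

Proof. Let `f_x` be the McShane extension of the distance function of `x ∈ S^d` to `M`. For the first
bound the map `q ↦ -∫ φ(f_x(q) - π/2) x dx` with the odd function `φ` which vanishes on `[-s, s]` and
has slope `1` outside is used; at distance less than `t` from the boundary it takes no small values.
For the second bound the map is `q ↦ ∫ (u - f_x(q))⁺ x dx`, `u < t₀`. The points `x` with
`f_x(q) ≤ u` have distances at most `2 u < arccos (-1/(d+1))`, so that they lie in an open half space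
(theorem of Jung for the sphere), and if `q` is near the boundary then they contain a cap of radius
`u - t`, so that the value of the map is not small. In both cases the map is a multiple of the
inclusion on the boundary, so it covers a ball, and its Jacobian is at most `vol(B^(d+1))^(d+1)`.
-/

open MeasureTheory Metric Set Filter Topology InnerProductGeometry

namespace Pool.Agent.Results.MP_aeade1_gt.FarFromTheBoundary

open Pool.Agent.H241R3.FV Pool.Agent.H82.FD

theorem result (d : ℕ) (hd : 1 ≤ d) (M : Type) [MetricSpace M] (S : Fill d M)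
    (hS : S.NonShort) (htop : (CompactSpace M ∧ S.Triangulated) ∨ S.NoRetraction) :
    (∀ s t : ℝ, 0 ≤ s → s ≤ t → t + s ≤ Real.pi / 2 →
      volume (ball (0 : E (d + 1)) 1) * ENNReal.ofReal
        (((∫ u in (0 : ℝ)..Real.pi, Real.sin u ^ d) - 2 * t +
          ∫ u in (t - s)..(t + s), (1 - 2 * Real.cos u ^ d)) /
            ∫ u in (0 : ℝ)..Real.pi, Real.sin u ^ (d + 1)) ^ (d + 1) ≤ deepVol S t) ∧
    ∀ t : ℝ, 0 ≤ t → t < Real.arccos (-1 / ((d : ℝ) + 1)) / 2 →
      0 < (Real.sin (Real.arccos (-1 / ((d : ℝ) + 1)) / 2 - t) *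
          ∫ u in (0 : ℝ)..(Real.arccos (-1 / ((d : ℝ) + 1)) / 2 - t), Real.sin u ^ d) /
            ∫ u in (0 : ℝ)..Real.pi, Real.sin u ^ (d + 1) ∧
      volume (ball (0 : E (d + 1)) 1) * ENNReal.ofReal
        ((Real.sin (Real.arccos (-1 / ((d : ℝ) + 1)) / 2 - t) *
          ∫ u in (0 : ℝ)..(Real.arccos (-1 / ((d : ℝ) + 1)) / 2 - t), Real.sin u ^ d) /
            ∫ u in (0 : ℝ)..Real.pi, Real.sin u ^ (d + 1)) ^ (d + 1) ≤ deepVol S t := by
  refine ⟨?_, ?_⟩
  · intro s t hs hst h2
    have h := first d hd M S hS htop s t hs hst h2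
    have hc : Continuous fun u : ℝ => Real.cos u ^ d := by fun_prop
    have hi : ∀ a b : ℝ, IntervalIntegrable (fun u : ℝ => Real.cos u ^ d) volume a b :=
      fun a b => hc.intervalIntegrable a b
    have e1 : (∫ u in (0 : ℝ)..Real.pi, Real.sin u ^ d) - 2 * t +
          ∫ u in (t - s)..(t + s), (1 - 2 * Real.cos u ^ d) =
        2 * ((∫ u in (t + s)..(Real.pi / 2), Real.cos u ^ d) +
          (∫ u in (0 : ℝ)..(t - s), Real.cos u ^ d) - (t - s)) := by
      have h3 := EulerSine.integral_cos_pow_eq d
      have h4 : ∫ u in (t - s)..(t + s), (1 - 2 * Real.cos u ^ d) =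
          2 * s - 2 * ∫ u in (t - s)..(t + s), Real.cos u ^ d := by
        rw [intervalIntegral.integral_sub, intervalIntegral.integral_const_mul,
          intervalIntegral.integral_const, smul_eq_mul, mul_one]
        · ring
        · exact intervalIntegrable_const
        · exact (hi _ _).const_mul 2
      have h5 := intervalIntegral.integral_add_adjacent_intervals (hi 0 (t - s))
        (hi (t - s) (t + s))
      have h6 := intervalIntegral.integral_add_adjacent_intervals (hi 0 (t + s))
        (hi (t + s) (Real.pi / 2))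
      rw [h4]
      linarith
    rw [e1]
    exact h
  · intro t ht0 ht
    have h := second d hd M S hS htop t ht0 ht
    have hI : 0 < ∫ u in (0 : ℝ)..Real.pi, Real.sin u ^ (d + 1) := integral_sin_pow_pos _
    have hpi : Real.arccos (-1 / ((d : ℝ) + 1)) ≤ Real.pi := Real.arccos_le_pi _
    have hpos := Real.pi_pos
    have hJ : 0 < ∫ u in (0 : ℝ)..(Real.arccos (-1 / ((d : ℝ) + 1)) / 2 - t),
        Real.sin u ^ d := by
      refine intervalIntegral.intervalIntegral_pos_of_pos_on ?_ ?_ (by linarith)
      · apply Continuous.intervalIntegrable; fun_prop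
      · intro s hs
        exact pow_pos (Real.sin_pos_of_pos_of_lt_pi hs.1 (by linarith [hs.2])) _
    have hs : 0 < Real.sin (Real.arccos (-1 / ((d : ℝ) + 1)) / 2 - t) :=
      Real.sin_pos_of_pos_of_lt_pi (by linarith) (by linarith)
    have hpp : 0 < (Real.sin (Real.arccos (-1 / ((d : ℝ) + 1)) / 2 - t) *
          ∫ u in (0 : ℝ)..(Real.arccos (-1 / ((d : ℝ) + 1)) / 2 - t), Real.sin u ^ d) /
            ∫ u in (0 : ℝ)..Real.pi, Real.sin u ^ (d + 1) := by positivity
    refine ⟨hpp, ?_⟩
    rw [← ENNReal.ofReal_pow hpp.le]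
    exact h

end Pool.Agent.Results.MP_aeade1_gt.FarFromTheBoundary
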