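import Pool.Agent.H37.CG.Caps

/-!
# The volume of narrow collars of nonshortcutting fillings of round spheres

Let `M` be a nonshortcutting filling of the round sphere `S^d`, of any topology, orientable or not, and
let `s ≥ 0` be a function on `M`, zero on the boundary, which is continuously differentiable with
`|∇s| ≤ 1` where `s < r`, for example the distance from the boundary if it is smooth there, or a smooth
approximation. The collar `{s < r}` has at least the volume
`vol(S^d) r / √(1 + (d + 1)² r²)`,
for all `r > 0`. The leading term is sharp: the collar of the boundary of the hemisphere has the volume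
`vol(S^d) ∫_0^r cos^d ≤ vol(S^d) r`. It also has at least the volume
`cst d vol(S^d) r / √(1 + r² / A²)`, `A = vol(H) / vol(S^d)`, which is better for larger `r`, with the
constants `cst d = 0.886, 0.87, 0.86, ...` of the library.

Proof. Let `θ` be a continuously differentiable function on `M` with values in `[0, π/2]` with the
constant value `π/2 - ρ` on the boundary. The graph of `θ` in the spherical suspension of `M`, with the
distance `arccos (sin θ(p) sin θ(q) + cos θ(p) cos θ(q) cos d(p, q))`, is a filling of the boundary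
sphere of the ball of radius `ρ` of the round sphere `S^(d+1)`; the points with `θ = π/2` are
identified. Its volume is the integral of `cos^d θ √(cos² θ + |∇θ|²)`. For `θ = Q(s)` with the
solution `Q` of `cos^d Q √(cos² Q + Q'²) = W` the part of `M` outside of the collar disappears, so that
the volume of the collar is at least `1 / W` times every lower bound for the volumes of the fillings
of that sphere. For small `ρ` the balls are minimal fillings (library), which gives the first bound;
`ρ = π/2` gives the second one.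
-/

set_option autoImplicit false

open MeasureTheory Metric Set

namespace Pool.Agent.Results.MP_aeade1_gt.SharpCollars

open Pool.Agent.H241R3.FV (Fill)
open Pool.Agent.H37.CG
open Pool.Agent.Results.MP_aeade1_gt.CompleteFillings (cst)

/-- Let `M` be a nonshortcutting filling of the round sphere `S^d`, `d ≥ 1`, let `s ≥ 0` be a
continuous function on `M`, zero on the boundary and continuously differentiable in the charts with
gradient at most one where `s < r`. Let `M` be compact and triangulated, or let `{s < r}` be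
contained in a compact set and let there be no retraction `M → S^d` which is constant on `{s ≥ r}`.
Then, with `A(ρ) = ∫ sin^d` over `[0, ρ]`:
(1) `vol(S^d) r ≤ √(1 + ((d + 1) r)²) vol {s < r}`;
(2) `vol(S^d) r ≤ √(1 + (sin^(d+1) ρ / A(ρ) r)²) vol {s < r}` if `(9 d + 13) sin² ρ ≤ d + 5`, or
`d = 1` and `3 sin² ρ ≤ 1`;
(3) `cst d vol(S^d) r ≤ √(1 + (r / A(π/2))²) vol {s < r}`;
(4) if `κ` times the volume of the ball of radius `ρ ≤ π/2` of the round sphere is a lower bound for
the volumes of all fillings of its boundary, then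
`κ vol(S^d) r ≤ √(1 + (sin^(d+1) ρ / A(ρ) r)²) vol {s < r}`;
(5) if `C` is a lower bound for the volumes of all fillings of the boundary of that ball, then
`C ≤ W vol {s < r}` for all `W > sin^(d+1) ρ` such that the integral of
`sin^d t / √(W² - sin^(2d+2) t)` over `[0, ρ]` is at most `r`. -/
theorem result (d : ℕ) (hd : 1 ≤ d) (M : Type) [MetricSpace M] (S : Fill d M)
    (hS : S.NonShort) (r : ℝ) (hr : 0 < r) (s : M → ℝ) (hs : CollarFn S s r)
    (ht : Topo S {q | r ≤ s q}) :
    ENNReal.ofReal (sphVol d * r) ≤
      ENNReal.ofReal √(1 + ((d + 1) * r) ^ 2) * collarVolume S s r ∧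
    (∀ ρ : ℝ, SmallRad d ρ → ENNReal.ofReal (sphVol d * r) ≤
      ENNReal.ofReal √(1 + (Real.sin ρ ^ (d + 1) / Ar d ρ * r) ^ 2) * collarVolume S s r) ∧
    ENNReal.ofReal (cst d * (sphVol d * r)) ≤
      ENNReal.ofReal √(1 + (r / Ar d (Real.pi / 2)) ^ 2) * collarVolume S s r ∧
    (∀ κ ρ : ℝ, 0 < ρ → ρ ≤ Real.pi / 2 →
      CapBound d ρ (ENNReal.ofReal (κ * (sphVol d * Ar d ρ))) →
      ENNReal.ofReal (κ * (sphVol d * r)) ≤
        ENNReal.ofReal √(1 + (Real.sin ρ ^ (d + 1) / Ar d ρ * r) ^ 2) * collarVolume S s r) ∧
    (∀ (C : ENNReal) (ρ W : ℝ), 0 < ρ → ρ ≤ Real.pi / 2 → Real.sin ρ ^ (d + 1) < W →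
      CapBound d ρ C →
      ∫ t in (0:ℝ)..ρ, Real.sin t ^ d / √(W ^ 2 - Real.sin t ^ (2 * (d + 1))) ≤ r →
      C ≤ ENNReal.ofReal W * collarVolume S s r) := by
  have h2 : ∀ ρ : ℝ, SmallRad d ρ → ENNReal.ofReal (sphVol d * r) ≤
      ENNReal.ofReal √(1 + (Real.sin ρ ^ (d + 1) / Ar d ρ * r) ^ 2) * collarVolume S s r := by
    intro ρ hρ
    have h := collarC hρ.1 hρ.2.1.le hr (capBound_small hd hρ) S hS hs ht
    rwa [one_mul] at h
  refine ⟨?_, h2, ?_, fun κ ρ h0 h1 hC => collarC h0 h1 hr hC S hS hs ht,
    fun C ρ W h0 h1 hW hC hw => ?_⟩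
  · -- a small radius
    have hsin : Real.sin (1 / 4) ≤ 1 / 4 := Real.sin_le (by norm_num)
    have hsin0 : 0 < Real.sin (1 / 4) :=
      Real.sin_pos_of_pos_of_lt_pi (by norm_num) (by linarith [Real.pi_gt_three])
    have hρ : SmallRad d (1 / 4) := by
      refine ⟨by norm_num, by linarith [Real.pi_gt_three], Or.inl ?_⟩
      have h3 : Real.sin (1 / 4) ^ 2 ≤ 1 / 16 := by nlinarith
      have h4 : (0:ℝ) ≤ d := Nat.cast_nonneg d
      nlinarith
    refine (h2 _ hρ).trans ?_
    have hπ : (1 / 4 : ℝ) ≤ Real.pi / 2 := by linarith [Real.pi_gt_three]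
    have hA := Ar_pos (d := d) (show (0:ℝ) < 1 / 4 by norm_num) hπ
    have hg := Ar_ge (d := d) (show (0:ℝ) < 1 / 4 by norm_num) hπ
    gcongr
    rw [div_le_iff₀ hA]
    exact hg
  · have h := collarC (show (0:ℝ) < Real.pi / 2 by positivity) le_rfl hr (capBound_cst hd)
      S hS hs ht
    have e : Real.sin (Real.pi / 2) ^ (d + 1) / Ar d (Real.pi / 2) * r =
        r / Ar d (Real.pi / 2) := by
      rw [Real.sin_pi_div_two, one_pow]
      ring
    rwa [e] at h
  · have hP : Par d ρ W := ⟨h0, h1, hW⟩
    rw [← wid2_eq hP] at hw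
    exact collarR hC hP S hS hs hw ht

end Pool.Agent.Results.MP_aeade1_gt.SharpCollars
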