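import Pool.Agent.H11.FV.Sup
import Pool.Agent.H11.FV.Rig2

/-!
# Surgery inside a small cap of the hemisphere: stability and rigidity of the minimum

`M` is a nonshortcutting filling of `S^d` (in the sense of the starting files: a metric space with
Riemannian charts), of any topology, orientable or not. The part `N` of `M` replaces the geodesic
ball `C_r` of radius `r` about the pole of the hemisphere `H`; the rest of `M` is the collar
`H \ C_r`, or any other collar that is not longer and has at least the same volume. It is known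
that the volume of `M` is at least the volume of `H` if `r` is small in the sense below.

Stability: the difference of the volumes is estimated from below by the integral over `N` of the
mean square deviation of the distance functions of the points of `N` (on the boundary sphere) from
the distance functions of the points of the cap.

Rigidity: if the volumes are equal, then `N` is isometric to the round cap `C_r`.

Proof: the natural map `F` (barycentre method) of the known proof. To a point `q` of `N` corresponds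
the function `u_q(v) = |v| cos ρ(v/|v|, q)` on `E n`, `n = d + 1`, and `F(q)` is the zero of
`p ↦ E[(u_q(v) - ⟨p, v⟩) exp (⟨p, v⟩² / 2) v]` (`v` Gaussian), if there is one. Let `κ` be the defect
of `u_q`, `K = E[κ²]`. The Jacobian of `F` (for the round volume) is at most
`(1 - K / n)^(n/2) / det (1 - S)`, `S` symmetric of trace zero, where `det (1 - S)` is at least
`exp (- (1 - t) K / 2)` with `t = 1 - 8 n tan² r / (n + 4)`. So the Jacobian is at most
`exp (- t K / 2) ≤ 1 - t K / (n + 2)`, and `K` is at least `n cos r` times the mean square deviation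
of `cos ρ(·, q)` from `⟨F(q), ·⟩` over the sphere `S^d`.

If the volumes are equal, then every point `q` of `N` has the same distance functions as a point
`F(q)` of the cap, and `F` does not increase distances: the great circle through two points of the
cap meets the equator. The map `F` covers the cap and preserves the volume. So `F` is injective in
the interior (two balls of `N` do not fit into one ball of the cap), and the image of a small ball is
almost dense in a ball of the same radius; jumping along a geodesic of the cap one sees that `F` is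
an isometry.
-/

set_option autoImplicit false

open MeasureTheory Metric Set InnerProductGeometry

namespace Pool.Agent.Results.MP_aeade1_gt.SmallCapStability

open Pool.Agent.H241R3.FV (Sph RChart Fill Triang E)

/-- The radii `r` that are allowed: `tan² r ≤ (d + 5) / (8 (d + 1))`, that is
`sin² r ≤ (d + 5) / (9 d + 13)`; for `d = 1` also `sin² r ≤ 1 / 3`. -/
def SmallRadius (d : ℕ) (r : ℝ) : Prop :=
  0 < r ∧ r < Real.pi / 2 ∧
    ((9 * d + 13) * Real.sin r ^ 2 ≤ d + 5 ∨ (d = 1 ∧ 3 * Real.sin r ^ 2 ≤ 1))

/-- `N`, with boundary `b`, is triangulated (it has arbitrarily fine triangulations), or there is no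
retraction of `N` to its boundary. -/
def Manifold {d : ℕ} {N : Type} [MetricSpace N] (b : Sph (d + 1) → N) : Prop :=
  (∀ ε : ℝ, 0 < ε → Nonempty (Triang b ε)) ∨
    ¬ ∃ ret : N → Sph (d + 1), Continuous ret ∧ ∀ x, ret (b x) = x

/-- `N` is covered by its boundary and by the parts `D` of the charts with index in `J`. -/
def Covered {d : ℕ} {M : Type} [MetricSpace M] (S : Fill d M) {N : Set M}
    (b : Sph (d + 1) → N) (J : Set S.ι) : Prop :=
  ∀ q : N, (∃ x, b x = q) ∨ ∃ i ∈ J, ∃ c ∈ (S.chart i).D, (S.chart i).map c = q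

/-- A point `x` of the boundary of `M` and a point `b y` with `⟨x, y⟩ ≥ 0` are at most at the
distance `arccos (sin r ⟨x, y⟩)` that they have in `H \ C_r`, where `b y` is the point of `∂C_r`
above `sin r • y`. -/
def CollarShort {d : ℕ} {M : Type} [MetricSpace M] (S : Fill d M) {N : Set M}
    (b : Sph (d + 1) → N) (r : ℝ) : Prop :=
  ∀ x y : Sph (d + 1), 0 ≤ (inner ℝ (x : E (d + 1)) (y : E (d + 1)) : ℝ) →
    dist (S.bd x) (b y : M) ≤
      Real.arccos (Real.sin r * inner ℝ (x : E (d + 1)) (y : E (d + 1)))

/-- The charts with index not in `J` have at least the volume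
`(d + 1) vol (B^(d+1)) ∫_r^(π/2) sin^d` of the round collar `H \ C_r`. -/
def CollarLarge {d : ℕ} {M : Type} [MetricSpace M] (S : Fill d M) (J : Set S.ι) (r : ℝ) : Prop :=
  ENNReal.ofReal ((d + 1) * (volume : Measure (E (d + 1))).real (ball 0 1) *
      ∫ t in r..(Real.pi / 2), Real.sin t ^ d) ≤
    ∑' i : ↥Jᶜ, ∫⁻ c in (S.chart i).D, ENNReal.ofReal √((S.chart i).G c).det

/-- The distance `ρ(x, q)` of the point `x` of the equator from `q` in the space obtained by gluing
`N` to the hemisphere without the cap, along `b`: the infimum of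
`arccos (sin r ⟨x, y⟩) + dist (q, b y)`. -/
noncomputable def rho {d : ℕ} {M : Type} [MetricSpace M] (r : ℝ) (b : Sph (d + 1) → M)
    (x : Sph (d + 1)) (q : M) : ℝ :=
  ⨅ y : Sph (d + 1), (Real.arccos (Real.sin r * inner ℝ (x : E (d + 1)) (y : E (d + 1))) +
    dist q (b y))

/-- The deviation of `q` from the points of the cap: the infimum over the points `(p, √(1 - |p|²))`
of the cap, `|p| ≤ sin r`, of the mean over `x` in `S^d` of `(cos ρ(x, q) - ⟨p, x⟩)²`; `⟨p, x⟩` is the
cosine of the distance of `x` from the point of the cap. -/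
noncomputable def dev {d : ℕ} {M : Type} [MetricSpace M] (r : ℝ) (b : Sph (d + 1) → M) (q : M) : ℝ :=
  ⨅ p : closedBall (0 : E (d + 1)) (Real.sin r), ⨍ x : Sph (d + 1),
    (Real.cos (rho r b x q) - inner ℝ (p : E (d + 1)) (x : E (d + 1))) ^ 2
      ∂((volume : Measure (E (d + 1))).toSphere)

/-- `q` is not `ε`-close to any point of the cap: for every point `(p, √(1 - |p|²))` of the cap the
cosines of the distances from some `x` in `S^d` differ by at least `ε`. -/
def Far {d : ℕ} {M : Type} [MetricSpace M] (r : ℝ) (b : Sph (d + 1) → M) (ε : ℝ) (q : M) : Prop :=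
  ∀ p : E (d + 1), ‖p‖ ≤ Real.sin r → ∃ x : Sph (d + 1),
    ε ≤ |Real.cos (rho r b x q) - inner ℝ p (x : E (d + 1))|

/-- The constant `c(d, r)`; it is positive if `r` is smaller than the largest allowed radius. -/
noncomputable def cst (d : ℕ) (r : ℝ) : ℝ :=
  if d = 1 then Real.cos r * (1 - 2 * Real.tan r ^ 2)
  else Real.cos r * ((d + 1) / (d + 3)) * (1 - 8 * (d + 1) / (d + 5) * Real.tan r ^ 2)

/-- The integral over `N` (over the charts with index in `J`) of a function. -/
noncomputable def integral {d : ℕ} {M : Type} [MetricSpace M] (S : Fill d M) (J : Set S.ι)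
    (f : M → ℝ) : ENNReal :=
  ∑' i : J, ∫⁻ c in (S.chart i).D, ENNReal.ofReal (f ((S.chart i).map c) * √((S.chart i).G c).det)

/-- The volume of the points of `N` (in the charts with index in `J`) with the property `P`. -/
noncomputable def volOf {d : ℕ} {M : Type} [MetricSpace M] (S : Fill d M) (J : Set S.ι)
    (P : M → Prop) : ENNReal :=
  ∑' i : J, ∫⁻ c in (S.chart i).D ∩ {c | P ((S.chart i).map c)},
    ENNReal.ofReal √((S.chart i).G c).det

/-- The radii for which the constant `c(d, r)` is positive: strict inequality in `SmallRadius`. -/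
def Strict (d : ℕ) (r : ℝ) : Prop :=
  (9 * d + 13) * Real.sin r ^ 2 < d + 5 ∨ (d = 1 ∧ 3 * Real.sin r ^ 2 < 1)

/-- The charts with index in `J` lie in `N`. -/
def Inside {d : ℕ} {M : Type} [MetricSpace M] (S : Fill d M) (N : Set M) (J : Set S.ι) : Prop :=
  ∀ i ∈ J, ∀ c ∈ (S.chart i).D, (S.chart i).map c ∈ N

/-- The volumes of small balls of `M` about points of `N` are like in a Riemannian manifold with
boundary: they are positive, and at the points of `N` outside the boundary the volume of the balls
of radius `ε` is at least `(1 - δ) vol (B^(d+1)) ε^(d+1)`, locally uniformly for small `ε`. -/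
def BallVolumes {d : ℕ} {M : Type} [MetricSpace M] (S : Fill d M) {N : Set M}
    (b : Sph (d + 1) → N) (J : Set S.ι) : Prop :=
  (∀ q : N, ∀ ε : ℝ, 0 < ε → 0 < volOf S J (· ∈ ball (q : M) ε)) ∧
    ∀ q : N, (∀ x, b x ≠ q) → ∀ δ : ℝ, 0 < δ → ∃ ρ : ℝ, 0 < ρ ∧ ∀ q' : N, dist q q' < ρ →
      ∀ ε : ℝ, 0 < ε → ε < ρ →
        ENNReal.ofReal ((1 - δ) * ((volume : Measure (E (d + 1))).real (ball 0 1) *
          ε ^ (d + 1))) ≤ volOf S J (· ∈ ball (q' : M) ε)

/-- The distance in the unit sphere of the points `(p, √(1 - |p|²))` and `(p', √(1 - |p'|²))` of the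
hemisphere. -/
noncomputable def hdist {n : ℕ} (p p' : E n) : ℝ :=
  Real.arccos (inner ℝ p p' + √(1 - ‖p‖ ^ 2) * √(1 - ‖p'‖ ^ 2))

/-- `N`, with the distance of `M`, is isometric to the round cap `C_r`: there is a map `F` of `N` onto
the ball of radius `sin r` such that the distance of `q` and `q'` is the distance in the unit sphere of
the points above `F q` and `F q'`, and `b y` is mapped to `sin r • y`. -/
def IsCap {d : ℕ} {M : Type} [MetricSpace M] {N : Set M} (b : Sph (d + 1) → N) (r : ℝ) : Prop :=
  ∃ F : N → E (d + 1), (∀ q, ‖F q‖ ≤ Real.sin r) ∧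
    (∀ p : E (d + 1), ‖p‖ ≤ Real.sin r → ∃ q, F q = p) ∧
    (∀ q q', dist q q' = hdist (F q) (F q')) ∧
    ∀ y : Sph (d + 1), F (b y) = Real.sin r • (y : E (d + 1))

/-- The volume of the hemisphere `H`. -/
noncomputable def volH (d : ℕ) : ENNReal := (volume : Measure (E (d + 2))).toSphere univ / 2

/-- `M` is a nonshortcutting filling, `N` a compact part of `M` with boundary `b`, covered by `b` and
the charts with index in `J`, and the rest of `M` is like the round collar `H \ C_r` (not longer, and
with at least the same volume), where `r` is small. -/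
structure Surgery {d : ℕ} {M : Type} [MetricSpace M] (S : Fill d M) (r : ℝ) {N : Set M}
    (b : Sph (d + 1) → N) (J : Set S.ι) : Prop where
  nonShort : S.NonShort
  small : SmallRadius d r
  compact : CompactSpace N
  manifold : Manifold b
  covered : Covered S b J
  collarShort : CollarShort S b r
  collarLarge : CollarLarge S J r

theorem cst_eq {d : ℕ} {r : ℝ} (hr0 : 0 < r) (hr1 : r < Real.pi / 2) :
    cst d r = Pool.Agent.H11.FV.gain d (Real.sin r) := by
  have hc : 0 < Real.cos r := Real.cos_pos_of_mem_Ioo ⟨by linarith [Real.pi_pos], hr1⟩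
  have h1 : 1 - Real.sin r ^ 2 = Real.cos r ^ 2 := by rw [Real.cos_sq']
  have h2 : √(1 - Real.sin r ^ 2) = Real.cos r := by rw [h1, Real.sqrt_sq hc.le]
  unfold cst Pool.Agent.H11.FV.gain
  rw [h2, h1, Real.tan_eq_sin_div_cos]
  split_ifs
  · field_simp
  · field_simp

/-- The inequality and the volume of the far points. -/
theorem stab (d : ℕ) (hd : 1 ≤ d) (M : Type) [MetricSpace M] (S : Fill d M) (hS : S.NonShort)
    (r : ℝ) (hr : SmallRadius d r) (N : Set M) [CompactSpace N] (b : Sph (d + 1) → N)
    (hT : Manifold b) (J : Set S.ι) (hcov : Covered S b J) (hcol : CollarShort S b r)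
    (hvol : CollarLarge S J r) :
    (volume : Measure (E (d + 2))).toSphere univ / 2 + ENNReal.ofReal (cst d r) *
      integral S J (dev r fun x => (b x : M)) ≤ S.vol ∧
    ∀ ε : ℝ, 0 < ε → (volume : Measure (E (d + 2))).toSphere univ / 2 +
      ENNReal.ofReal (cst d r * (ε ^ 2 / 4 * (ε / 16) ^ (d + 1))) *
        volOf S J (Far r (fun x => (b x : M)) ε) ≤ S.vol := by
  obtain ⟨hr0, hr1, hrs⟩ := hr
  have hl0 : 0 ≤ Real.sin r := (Real.sin_pos_of_pos_of_lt_pi hr0 (by linarith [Real.pi_pos])).le
  have hb := Pool.Agent.K7.H34.FV.capd_le S.bd (fun x => (b x : M)) hS hl0 (Real.sin_le_one r) hcol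
  have := S.countable
  have hg0 := (Pool.Agent.H11.FV.gain_bd (d := d) (l := Real.sin r) hrs).1
  rw [← cst_eq (d := d) hr0 hr1] at hg0
  have h1 := Pool.Agent.H11.FV.cap_gain hd hr0 hr1 hrs b hT hb (fun i : J => S.chart i)
    (fun q => by
      rcases hcov q with h | ⟨i, hi, h⟩
      · exact Or.inl h
      · exact Or.inr ⟨⟨i, hi⟩, h⟩)
  rw [← cst_eq (d := d) hr0 hr1] at h1
  have h2 : S.vol = (∑' i : ↥J, ∫⁻ c in (S.chart i).D, ENNReal.ofReal √((S.chart i).G c).det) +
      ∑' i : ↥Jᶜ, ∫⁻ c in (S.chart i).D, ENNReal.ofReal √((S.chart i).G c).det :=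
    (ENNReal.summable.tsum_add_tsum_compl ENNReal.summable).symm
  have h3 : (volume : Measure (E (d + 2))).toSphere univ / 2 + ENNReal.ofReal (cst d r) *
      integral S J (dev r fun x => (b x : M)) ≤ S.vol := by
    rw [Pool.Agent.K7.H34.FV.sphere_total, h2]
    refine le_trans ?_ (add_le_add h1 hvol)
    have hi : ∀ a c : ℝ, IntervalIntegrable (fun t => Real.sin t ^ d) volume a c := fun a c =>
      (by fun_prop : Continuous fun t : ℝ => Real.sin t ^ d).intervalIntegrable _ _
    have hom : 0 ≤ Pool.Agent.H241R3.FV.om (d + 1) := measureReal_nonneg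
    rw [add_right_comm]
    refine add_le_add ?_ le_rfl
    rw [← ENNReal.ofReal_add]
    · refine ENNReal.ofReal_le_ofReal (le_of_eq ?_)
      rw [← intervalIntegral.integral_add_adjacent_intervals (hi 0 r) (hi r (Real.pi / 2))]
      unfold Pool.Agent.H241R3.FV.om
      push_cast
      ring
    · refine mul_nonneg (mul_nonneg (Nat.cast_nonneg _) hom) ?_
      refine intervalIntegral.integral_nonneg hr0.le fun t ht => ?_
      exact pow_nonneg (Real.sin_nonneg_of_nonneg_of_le_pi ht.1
        (by linarith [ht.2, Real.pi_pos])) _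
    · refine mul_nonneg (mul_nonneg (by positivity) hom) ?_
      refine intervalIntegral.integral_nonneg hr1.le fun t ht => ?_
      exact pow_nonneg (Real.sin_nonneg_of_nonneg_of_le_pi (hr0.le.trans ht.1)
        (by linarith [ht.2, Real.pi_pos])) _
  refine ⟨h3, fun ε hε => le_trans (add_le_add le_rfl ?_) h3⟩
  rw [ENNReal.ofReal_mul hg0, mul_assoc]
  refine mul_le_mul_right ?_ _
  unfold volOf integral
  rw [← ENNReal.tsum_mul_left]
  refine ENNReal.tsum_le_tsum fun i => ?_
  have hk : 0 ≤ ε ^ 2 / 4 * (ε / 16) ^ (d + 1) := by positivity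
  have hclosed := Pool.Agent.H11.FV.bad_closed (n := d + 1) (Nat.succ_le_succ (Nat.zero_le d)) hl0
    (Real.sin_le_one r) (fun x => (b x : M)) ε
  have hmeas : MeasurableSet ((S.chart i).D ∩
      {c | Far r (fun x => (b x : M)) ε ((S.chart i).map c)}) := by
    obtain ⟨V, hV, hVe⟩ := continuousOn_iff'.1 (Pool.Agent.H11.FV.map_cont (S.chart i)) _
      hclosed.isOpen_compl
    have e : (S.chart i).D ∩ {c | Far r (fun x => (b x : M)) ε ((S.chart i).map c)} =
        (S.chart i).D ∩ Vᶜ := by
      ext c
      constructor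
      · rintro ⟨hc1, hc2⟩
        refine ⟨hc1, fun hcV => ?_⟩
        have h4 : c ∈ V ∩ (S.chart i).U := ⟨hcV, (S.chart i).D_sub hc1⟩
        rw [← hVe] at h4
        exact h4.1 hc2
      · rintro ⟨hc1, hc2⟩
        refine ⟨hc1, ?_⟩
        by_contra hcon
        have h4 : c ∈ (S.chart i).map ⁻¹' {q : M | ∀ p : E (d + 1), ‖p‖ ≤ Real.sin r →
            ∃ x : Sph (d + 1), ε ≤ |Real.cos (Pool.Agent.K7.H34.FV.exl (Real.sin r)
              (fun x => (b x : M)) x q) - inner ℝ p (x : E (d + 1))|}ᶜ ∩ (S.chart i).U :=
          ⟨hcon, (S.chart i).D_sub hc1⟩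
        rw [hVe] at h4
        exact hc2 h4.1
    rw [e]
    exact (S.chart i).meas_D.inter hV.measurableSet.compl
  rw [← lintegral_const_mul' _ _ ENNReal.ofReal_ne_top]
  refine le_trans (setLIntegral_mono' hmeas fun c hc => ?_) (lintegral_mono_set inter_subset_left)
  rw [← ENNReal.ofReal_mul hk]
  refine ENNReal.ofReal_le_ofReal (mul_le_mul_of_nonneg_right ?_ (Real.sqrt_nonneg _))
  exact Pool.Agent.H11.FV.dv_ge (n := d + 1) (Nat.succ_le_succ (Nat.zero_le d)) hl0
    (Real.sin_le_one r) (fun x => (b x : M)) _ hε hc.2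

theorem gain_pos {d : ℕ} {r : ℝ} (h0 : 0 < r) (h1 : r < Real.pi / 2) (h2 : Strict d r) :
    0 < Pool.Agent.H11.FV.gain d (Real.sin r) := by
  have hc : 0 < Real.cos r := Real.cos_pos_of_mem_Ioo ⟨by linarith [Real.pi_pos], h1⟩
  have hcs : 1 - Real.sin r ^ 2 = Real.cos r ^ 2 := by rw [Real.cos_sq']
  have hc2 : 0 < Real.cos r ^ 2 := by positivity
  have hs : Real.sin r ^ 2 = 1 - Real.cos r ^ 2 := by linarith
  unfold Pool.Agent.H11.FV.gain
  rw [hcs, Real.sqrt_sq hc.le]
  split_ifs with hd
  · subst hd
    have h3 : 3 * Real.sin r ^ 2 < 1 := by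
      rcases h2 with h2 | ⟨-, h2⟩
      · push_cast at h2; linarith
      · exact h2
    have h4 : 2 * Real.sin r ^ 2 / Real.cos r ^ 2 < 1 := by
      rw [div_lt_one hc2]; linarith
    exact mul_pos hc (by linarith)
  · have h3 : (9 * (d : ℝ) + 13) * Real.sin r ^ 2 < d + 5 := by
      rcases h2 with h2 | ⟨h2, -⟩
      · exact h2
      · exact absurd h2 hd
    have h4 : 8 * (d + 1) * Real.sin r ^ 2 / ((d + 5) * Real.cos r ^ 2) < 1 := by
      rw [div_lt_one (by positivity)]
      nlinarith
    exact mul_pos (by positivity) (by linarith)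

/-- The case of equality. -/
theorem rigid (d : ℕ) (hd : 1 ≤ d) (M : Type) [MetricSpace M] (S : Fill d M) (hS : S.NonShort)
    (r : ℝ) (hr : SmallRadius d r) (hr' : Strict d r) (N : Set M) [CompactSpace N] (b : Sph (d + 1) → N)
    (hT : Manifold b) (J : Set S.ι) (hcov : Covered S b J) (hin : Inside S N J)
    (hball : BallVolumes S b J)
    (hcol : CollarShort S b r) (hvol : CollarLarge S J r)
    (hmin : S.vol ≤ (volume : Measure (E (d + 2))).toSphere univ / 2) :
    IsCap b r := by
  have hg := gain_pos hr.1 hr.2.1 hr'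
  obtain ⟨hr0, hr1, hrs⟩ := hr
  have hadm : Pool.Agent.K7.H34.FV.Adm d (Real.sin r ^ 2) := by
    rcases hrs with h | ⟨h1, h⟩
    · exact Or.inl h
    · exact Or.inr ⟨h1, h⟩
  have hl0 : 0 ≤ Real.sin r := (Real.sin_pos_of_pos_of_lt_pi hr0 (by linarith [Real.pi_pos])).le
  have hb := Pool.Agent.K7.H34.FV.capd_le S.bd (fun x => (b x : M)) hS hl0 (Real.sin_le_one r) hcol
  have := S.countable
  have h2 : S.vol = (∑' i : ↥J, ∫⁻ c in (S.chart i).D, ENNReal.ofReal √((S.chart i).G c).det) +
      ∑' i : ↥Jᶜ, ∫⁻ c in (S.chart i).D, ENNReal.ofReal √((S.chart i).G c).det :=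
    (ENNReal.summable.tsum_add_tsum_compl ENNReal.summable).symm
  have hi : ∀ a c : ℝ, IntervalIntegrable (fun t => Real.sin t ^ d) volume a c := fun a c =>
    (by fun_prop : Continuous fun t : ℝ => Real.sin t ^ d).intervalIntegrable _ _
  have hom : 0 ≤ Pool.Agent.H241R3.FV.om (d + 1) := measureReal_nonneg
  have hle : ∑' i : ↥J, ∫⁻ c in (S.chart i).D, ENNReal.ofReal √((S.chart i).G c).det ≤
      ENNReal.ofReal ((d + 1 : ℕ) * Pool.Agent.H241R3.FV.om (d + 1) *
        ∫ t in (0 : ℝ)..r, Real.sin t ^ d) := by
    refine ENNReal.le_of_add_le_add_right (ENNReal.ofReal_ne_top (r := (d + 1) *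
      (volume : Measure (E (d + 1))).real (ball 0 1) *
        ∫ t in r..(Real.pi / 2), Real.sin t ^ d)) ?_
    refine (add_le_add le_rfl hvol).trans ?_
    rw [← h2]
    refine hmin.trans ?_
    rw [Pool.Agent.K7.H34.FV.sphere_total, ← ENNReal.ofReal_add]
    · refine ENNReal.ofReal_le_ofReal (le_of_eq ?_)
      rw [← intervalIntegral.integral_add_adjacent_intervals (hi 0 r) (hi r (Real.pi / 2))]
      unfold Pool.Agent.H241R3.FV.om
      push_cast
      ring
    · refine mul_nonneg (mul_nonneg (Nat.cast_nonneg _) hom) ?_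
      refine intervalIntegral.integral_nonneg hr0.le fun t ht => ?_
      exact pow_nonneg (Real.sin_nonneg_of_nonneg_of_le_pi ht.1
        (by linarith [ht.2, Real.pi_pos])) _
    · refine mul_nonneg (mul_nonneg (by positivity) hom) ?_
      refine intervalIntegral.integral_nonneg hr1.le fun t ht => ?_
      exact pow_nonneg (Real.sin_nonneg_of_nonneg_of_le_pi (hr0.le.trans ht.1)
        (by linarith [ht.2, Real.pi_pos])) _
  exact Pool.Agent.H11.FV.cap_rigid hd hr0 hr1 hadm hg b hT hb (fun i : J => S.chart i)
    (fun q => by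
      rcases hcov q with h | ⟨i, hi, h⟩
      · exact Or.inl h
      · exact Or.inr ⟨⟨i, hi⟩, h⟩)
    (fun i c hc => hin i i.2 c hc) hball.1 hball.2 hle

/-- Let `M` be a nonshortcutting filling of `S^d`, `N` a compact subset of `M` with boundary
`b : S^d → N`, covered by `b` and the charts with index in `J`. Let the rest of `M` be like the round
collar `H \ C_r` (not longer, and with at least the same volume), and let `r` be small in the sense
above. Then
(1) `vol M ≥ vol H + c(d, r) ∫_N dev`;
(2) for every `ε > 0` the volume of the set of the points of `N` that are not `ε`-close to a point of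
the cap is at most `(vol M - vol H) / (c(d, r) (ε² / 4) (ε / 16)^(d + 1))`;
(3) if `r` is smaller than the largest radius, the charts with index in `J` lie in `N`, the balls of
`N` have the usual volumes, and `vol M ≤ vol H`, then `N`, with the distance of `M`, is isometric to
the round cap `C_r`. -/
theorem result (d : ℕ) (hd : 1 ≤ d) (M : Type) [MetricSpace M] (S : Fill d M) (r : ℝ) (N : Set M)
    (b : Sph (d + 1) → N) (J : Set S.ι) (h : Surgery S r b J) :
    volH d + ENNReal.ofReal (cst d r) * integral S J (dev r fun x => (b x : M)) ≤ S.vol ∧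
    (∀ ε : ℝ, 0 < ε → volH d + ENNReal.ofReal (cst d r * (ε ^ 2 / 4 * (ε / 16) ^ (d + 1))) *
      volOf S J (Far r (fun x => (b x : M)) ε) ≤ S.vol) ∧
    (Strict d r → Inside S N J → BallVolumes S b J → S.vol ≤ volH d → IsCap b r) := by
  obtain ⟨hS, hr, hN, hT, hcov, hcol, hvol⟩ := h
  exact ⟨(stab d hd M S hS r hr N b hT J hcov hcol hvol).1,
    (stab d hd M S hS r hr N b hT J hcov hcol hvol).2,
    fun h1 h2 h3 h4 => rigid d hd M S hS r hr h1 N b hT J hcov h2 h3 hcol hvol h4⟩

end Pool.Agent.Results.MP_aeade1_gt.SmallCapStability
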