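import Pool.Agent.H37.CG.Linear
import Pool.Agent.H37.CG.L1
import Pool.Agent.H37.CG.Caps

/-!
# Functional inequalities for nonshortcutting fillings of round spheres

Let `M` be a nonshortcutting filling of the round sphere `S^d` of any topology, orientable or not, let
`C` be a lower bound for the volumes of all compact nonshortcutting fillings of `S^d`, for example
`cst d` times the volume of the round hemisphere `H` (library, `cst d = 0.886, 0.87, 0.86, ...`), and
let `N` be the set of all points of `M` at distance less than `π/2` from the boundary.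
1. Let `M` be compact, and let `w` be a continuously differentiable function on `M` which has the
   linear boundary values `w(x) = ⟨a, x⟩`. Then
   `C ≤ ∫_M (1 + w²)^(-(d+2)/2) √(1 + w² + |∇w|²)`,
   and `(d + 1) ∫_M w² ≤ ∫_M |∇w|² + √(2 (d + 1) (d + 3) (vol M - C) ∫_M w⁴)`. (For the hemisphere, with
   `C = vol H`, and all linear functions `w` on `ℝ^(d+2)` there is equality in both inequalities.)
2. For functions `u` which vanish on the boundary of `M`, compact or not,
   `(d + 1) ∫_N u² ≤ ∫_N |∇u|² + (d + 1) √(2 (vol N - C) ∫_N u⁴)`. So the first Dirichlet eigenvalue of a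
   filling of least volume is at least `d + 1`, the one of the hemisphere.
3. For these functions, if `|u| ≤ m`, `m C + ∫_N |u| ≤ m vol N + A ∫_N |∇u|`, where
   `A = vol(H) / vol(S^d) = ∫ cos^d` over `[0, π/2]`. For approximations of indicator functions this is
   the isoperimetric inequality `vol F ≤ A area(∂F) + vol N - C`.

Proof. Let `θ` be a continuously differentiable function on `M` with values in `[-π/2, π/2]`. The graph
of `θ` in the spherical suspension of `M`, with the distance
`arccos (sin θ(p) sin θ(q) + cos θ(p) cos θ(q) cos d(p, q))`, has the Riemannian metric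
`cos² θ g + dθ²` with the volume density `cos^d θ √(cos² θ + |∇θ|²)`; the points over the poles are
identified. If `tan θ` is linear on the boundary, the boundary of the graph is, after a linear change
of the parametrisation, a tilted great sphere, and the graph is a nonshortcutting filling of it. For
(1) and (2) this is applied to `θ = arctan (ε w)` and `θ = ε u` with the optimal `ε`, for (3) to
functions of `|u|` for which the density is constant where `|∇u|` is, at many levels of `|u|`.
-/

set_option autoImplicit false

open MeasureTheory Metric Set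

namespace Pool.Agent.Results.MP_aeade1_gt.SuspensionGraphs

open Pool.Agent.H241R3.FV (Fill E)
open Pool.Agent.H37.CG
open Pool.Agent.Results.MP_aeade1_gt.CompleteFillings (hemisphere cst)

/-- The inequality `C ≤ ∫_M (1 + w²)^(-(d+2)/2) √(1 + w² + |∇w|²)`. -/
def Graph {d : ℕ} {M : Type} [MetricSpace M] (S : Fill d M) (w : M → ℝ) (C : ENNReal) : Prop :=
  C ≤ mInt S (fun i p => √(1 + w ((S.chart i).map p) ^ 2 + gradSq (S.chart i) w p) /
    √(1 + w ((S.chart i).map p) ^ 2) ^ (d + 2))

/-- The inequality `(d + 1) ∫_M w² ≤ ∫_M |∇w|² + √(2 (d + 1) (d + 3) (vol M - C) ∫_M w⁴)`, if the volume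
of `M` and the integral of `w⁴` are finite. -/
def Energy {d : ℕ} {M : Type} [MetricSpace M] (S : Fill d M) (w : M → ℝ) (C : ENNReal) : Prop :=
  S.vol ≠ ⊤ → mInt S (fun i p => w ((S.chart i).map p) ^ 4) ≠ ⊤ →
    ENNReal.ofReal (d + 1) * mInt S (fun i p => w ((S.chart i).map p) ^ 2) ≤
      mInt S (fun i p => gradSq (S.chart i) w p) +
      ENNReal.ofReal (√(2 * (d + 1) * (d + 3) * (S.vol.toReal - C.toReal) *
        (mInt S (fun i p => w ((S.chart i).map p) ^ 4)).toReal))

/-- The inequality `(d + 1) ∫_N u² ≤ ∫_N |∇u|² + (d + 1) √(2 (vol N - C) ∫_N u⁴)`, where `N` is the set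
of all points at distance less than `π/2` from the boundary, if the volume of `N` and the integral of
`u⁴` over `N` are finite. -/
def Poincare {d : ℕ} {M : Type} [MetricSpace M] (S : Fill d M) (u : M → ℝ) (C : ENNReal) : Prop :=
  nInt S (fun _ _ => 1) ≠ ⊤ → nInt S (fun i p => u ((S.chart i).map p) ^ 4) ≠ ⊤ →
    ENNReal.ofReal (d + 1) * nInt S (fun i p => u ((S.chart i).map p) ^ 2) ≤
      nInt S (fun i p => gradSq (S.chart i) u p) +
      ENNReal.ofReal ((d + 1) * √(2 * ((nInt S (fun _ _ => 1)).toReal - C.toReal) *
        (nInt S (fun i p => u ((S.chart i).map p) ^ 4)).toReal))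

/-- The inequality `m C + ∫_N |u| ≤ m vol N + A ∫_N |∇u|`, where `A = ∫ cos^d` over `[0, π/2]`, if
`|u| ≤ m`. -/
def Variation {d : ℕ} {M : Type} [MetricSpace M] (S : Fill d M) (u : M → ℝ) (C : ENNReal) : Prop :=
  ∀ m : ℝ, 0 < m → (∀ q, |u q| ≤ m) →
    ENNReal.ofReal m * C + nInt S (fun i p => |u ((S.chart i).map p)|) ≤
      ENNReal.ofReal m * nInt S (fun _ _ => 1) +
      ENNReal.ofReal (Ac d) * nInt S (fun i p => √(gradSq (S.chart i) u p))

/-- Let `M` be a nonshortcutting filling of the round sphere `S^d`, `d ≥ 1`.
(1) For every lower bound `C` for the volumes of all compact nonshortcutting fillings of `S^d`, if `M`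
is compact, and triangulated or without retraction to its boundary, the first two inequalities hold
for all continuously differentiable functions with linear boundary values; and under the topological
hypothesis `Top` (which does not need compactness) `C` is at most the volume of `N`, and the other two
inequalities hold for all continuously differentiable functions which vanish on the boundary.
(2) `C = cst d` times the volume of the round hemisphere is such a lower bound.
(3) The volume of the round hemisphere is `A vol(S^d)`, `vol(S^d) = (d + 1) vol(B^(d+1))`. -/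
theorem result (d : ℕ) (hd : 1 ≤ d) :
    (∀ (M : Type) [MetricSpace M] (S : Fill d M), S.NonShort →
      ∀ C : ENNReal, LowerBound d C →
        (CompactSpace M → (S.Triangulated ∨ S.NoRetraction) →
          ∀ (a : E (d + 1)) (w : M → ℝ), LinFun S a w → Graph S w C ∧ Energy S w C) ∧
        (Top S → C ≤ nInt S (fun _ _ => 1) ∧
          ∀ u : M → ℝ, TestFun S u → Poincare S u C ∧ Variation S u C)) ∧
    LowerBound d (ENNReal.ofReal (cst d) * hemisphere d) ∧
    hemisphere d = ENNReal.ofReal (sphVol d * Ac d) := by
  refine ⟨fun M _ S hS C hC => ⟨fun hM hT a w hw => ⟨graphLinear hC S hS hT hw,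
    fun hV h4 => poincareLinear hC S hS hT hw hV h4⟩, fun ht => ⟨?_, fun u hu =>
    ⟨fun hV h4 => (poincare hd hC S hS ht hu hV h4).2,
      fun m hm hum => l1 hC S hS ht hu hm hum⟩⟩⟩, lowerBound_cst hd, ?_⟩
  · have h0 : TestFun S (fun _ : M => (0:ℝ)) :=
      ⟨continuous_const, fun i => contDiffOn_const, fun _ => rfl⟩
    by_cases hV : nInt S (fun _ _ => 1) = ⊤
    · rw [hV]
      exact le_top
    · refine (poincare hd hC S hS ht h0 hV ?_).1
      have e : (fun (i : S.ι) (p : E (d + 1)) => (0:ℝ) ^ 4) = fun i p => 0 * 1 := by
        funext i p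
        norm_num
      rw [e, nInt_smul S le_rfl (fun _ _ => 1), ENNReal.ofReal_zero, zero_mul]
      exact ENNReal.zero_ne_top
  · rw [Ac_eq]
    exact hemisphere_eq d

end Pool.Agent.Results.MP_aeade1_gt.SuspensionGraphs
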